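import Pool.Agent.TH628.PR.Upper
set_option autoImplicit false

/-!
# The parity rule on linear programs whose polyhedron is a cube
-/

namespace Pool.Agent.TH628.PR

open Finset Pool.Agent.H454R3

variable {n : ℕ}

/-- the polyhedron `A x ≤ b`; the rows come in `n` pairs -/
def poly (A : Fin n × Bool → Fin n → ℝ) (b : Fin n × Bool → ℝ) : Set (Fin n → ℝ) :=
  {x | ∀ r, ∑ l, A r l * x l ≤ b r}

/-- the row `r` is tight at `x` -/
def Tight (A : Fin n × Bool → Fin n → ℝ) (b : Fin n × Bool → ℝ) (x : Fin n → ℝ)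
    (r : Fin n × Bool) : Prop := ∑ l, A r l * x l = b r

/-- `x` is the vertex at which the row `(i, s i)` of every pair is tight and the other one is not -/
def VertexAt (A : Fin n × Bool → Fin n → ℝ) (b : Fin n × Bool → ℝ) (s : Fin n → Bool)
    (x : Fin n → ℝ) : Prop :=
  x ∈ (poly A b).extremePoints ℝ ∧ ∀ i e, (Tight A b x (i, e) ↔ e = s i)

/-- the polyhedron is combinatorially a cube with the pairs of rows as pairs of opposite facets:
at every vertex exactly one row of each pair is tight, and every choice of one row from each pair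
occurs -/
def IsCube (A : Fin n × Bool → Fin n → ℝ) (b : Fin n × Bool → ℝ) : Prop :=
  (∀ x ∈ (poly A b).extremePoints ℝ, ∃ s, VertexAt A b s x) ∧ ∀ s, ∃ x, VertexAt A b s x

/-- what the rule sees of the vertex `x`: the names of its tight rows -/
noncomputable def sg (A : Fin n × Bool → Fin n → ℝ) (b : Fin n × Bool → ℝ) (x : Fin n → ℝ) :
    Fin n → Bool := open Classical in fun i => decide (Tight A b x (i, true))

/-- `y` is the neighbouring vertex of `x` in which the tight row of the `i`-th pair is left -/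
def Nb (A : Fin n × Bool → Fin n → ℝ) (b : Fin n × Bool → ℝ) (x : Fin n → ℝ) (i : Fin n)
    (y : Fin n → ℝ) : Prop :=
  y ∈ (poly A b).extremePoints ℝ ∧ y ≠ x ∧
    ∀ j, j ≠ i → ∀ e, Tight A b x (j, e) → Tight A b y (j, e)

/-- the pairs whose tight row can be left with an improvement of the objective `c` -/
noncomputable def impr (A : Fin n × Bool → Fin n → ℝ) (b : Fin n × Bool → ℝ) (c : Fin n → ℝ)
    (x : Fin n → ℝ) : Finset (Fin n) :=
  open Classical in univ.filter fun i => ∃ y, Nb A b x i y ∧ ∑ l, c l * x l < ∑ l, c l * y l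

/-- `y` is the next vertex after `x` when the pivot rule is `ρ` -/
def Pivot (A : Fin n × Bool → Fin n → ℝ) (b : Fin n × Bool → ℝ) (c : Fin n → ℝ)
    (ρ : (Fin n → Bool) → Finset (Fin n) → Fin n) (x y : Fin n → ℝ) : Prop :=
  (impr A b c x).Nonempty ∧ Nb A b x (ρ (sg A b x) (impr A b c x)) y

/-- every face of the polyhedron (the vertices with the same tight rows as `x` outside the pairs
in `U`) has a nonempty set `D ⊆ U` of at most `m` pairs such that the set of the pairs in `D` whose
tight row can be left with an improvement depends only on the tight rows of the pairs in `D` -/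
def LPBlocks (m : ℕ) (A : Fin n × Bool → Fin n → ℝ) (b : Fin n × Bool → ℝ) (c : Fin n → ℝ) :
    Prop :=
  ∀ U : Finset (Fin n), ∀ x ∈ (poly A b).extremePoints ℝ, U.Nonempty →
    ∃ D ⊆ U, D.Nonempty ∧ D.card ≤ m ∧
      ∀ y ∈ (poly A b).extremePoints ℝ, ∀ z ∈ (poly A b).extremePoints ℝ,
        (∀ j, j ∉ U → sg A b y j = sg A b x j) → (∀ j, j ∉ U → sg A b z j = sg A b x j) →
        (∀ j ∈ D, sg A b y j = sg A b z j) → ∀ i ∈ D, (i ∈ impr A b c y ↔ i ∈ impr A b c z)

section
variable {A : Fin n × Bool → Fin n → ℝ} {b : Fin n × Bool → ℝ}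

lemma VertexAt.sg {s : Fin n → Bool} {x : Fin n → ℝ} (h : VertexAt A b s x) :
    PR.sg A b x = s := by
  classical
  funext i
  unfold PR.sg
  rw [Bool.eq_iff_iff, decide_eq_true_eq, h.2 i true, eq_comm]

/-- coordinates with respect to the neighbours -/
lemma coords {s : Fin n → Bool} {x : Fin n → ℝ} (hx : VertexAt A b s x) (y : Fin n → Fin n → ℝ)
    (hy : ∀ i, VertexAt A b (H454R3.flip s i) (y i)) (z : Fin n → ℝ) :
    ∃ t : Fin n → ℝ, (∀ l, z l - x l = ∑ i, t i * (y i l - x l)) ∧
      (z ∈ poly A b → ∀ i, 0 ≤ t i) ∧ ((∀ i, Tight A b z (i, s i)) → ∀ i, t i = 0) := by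
  classical
  -- the values of the tight rows on the edges
  have hoff : ∀ i j, j ≠ i → ∑ l, A (j, s j) l * (y i l - x l) = 0 := by
    intro i j hji
    have h1 : Tight A b x (j, s j) := (hx.2 j (s j)).2 rfl
    have h2 : Tight A b (y i) (j, s j) := ((hy i).2 j (s j)).2 (by rw [flip_of_ne _ hji])
    unfold Tight at h1 h2
    simp only [mul_sub, sum_sub_distrib]
    rw [h1, h2, sub_self]
  have hon : ∀ i, ∑ l, A (i, s i) l * (y i l - x l) < 0 := by
    intro i
    have h1 : Tight A b x (i, s i) := (hx.2 i (s i)).2 rfl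
    have h2 : ¬ Tight A b (y i) (i, s i) := by
      rw [(hy i).2 i (s i)]
      unfold H454R3.flip
      rw [Function.update_self]
      cases s i <;> simp
    have h3 : ∑ l, A (i, s i) l * y i l ≤ b (i, s i) := (hy i).1.1 (i, s i)
    unfold Tight at h1 h2
    simp only [mul_sub, sum_sub_distrib]
    rw [h1]
    have := lt_of_le_of_ne h3 h2
    linarith
  -- linear independence
  have hli : LinearIndependent ℝ (fun i : Fin n => (fun l => y i l - x l : Fin n → ℝ)) := by
    rw [Fintype.linearIndependent_iff]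
    intro g hg j
    have h1 : ∑ l, A (j, s j) l * (∑ i, g i • (fun l => y i l - x l : Fin n → ℝ)) l = 0 := by
      rw [hg]; simp
    have h2 : ∑ l, A (j, s j) l * (∑ i, g i • (fun l => y i l - x l : Fin n → ℝ)) l =
        ∑ i, g i * ∑ l, A (j, s j) l * (y i l - x l) := by
      simp only [Finset.sum_apply, Pi.smul_apply, smul_eq_mul, mul_sum]
      rw [sum_comm]
      refine sum_congr rfl fun i _ => sum_congr rfl fun l _ => ?_
      ring
    rw [h2, sum_eq_single j (fun i _ hij => by rw [hoff i j hij.symm, mul_zero])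
      (fun h => absurd (mem_univ j) h)] at h1
    rcases mul_eq_zero.1 h1 with h3 | h3
    · exact h3
    · exact absurd h3 (hon j).ne
  have hspan : z - x ∈ Submodule.span ℝ (Set.range fun i : Fin n =>
      (fun l => y i l - x l : Fin n → ℝ)) := by
    rw [hli.span_eq_top_of_card_eq_finrank' (by simp)]
    exact Submodule.mem_top
  obtain ⟨t, ht⟩ := (Submodule.mem_span_range_iff_exists_fun ℝ).1 hspan
  have hco : ∀ l, z l - x l = ∑ i, t i * (y i l - x l) := by
    intro l
    have := congrFun ht l
    simp only [Finset.sum_apply, Pi.smul_apply, smul_eq_mul, Pi.sub_apply] at this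
    exact this.symm
  have hval : ∀ j, ∑ l, A (j, s j) l * z l - b (j, s j) =
      t j * ∑ l, A (j, s j) l * (y j l - x l) := by
    intro j
    have h1 : Tight A b x (j, s j) := (hx.2 j (s j)).2 rfl
    unfold Tight at h1
    have h2 : ∑ l, A (j, s j) l * z l - b (j, s j) = ∑ l, A (j, s j) l * (z l - x l) := by
      simp only [mul_sub, sum_sub_distrib]
      rw [h1]
    rw [h2]
    have h3 : ∑ l, A (j, s j) l * (z l - x l) =
        ∑ i, t i * ∑ l, A (j, s j) l * (y i l - x l) := by
      simp only [hco, mul_sum]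
      rw [sum_comm]
      refine sum_congr rfl fun i _ => sum_congr rfl fun l _ => ?_
      ring
    rw [h3, sum_eq_single j (fun i _ hij => by rw [hoff i j hij.symm, mul_zero])
      (fun h => absurd (mem_univ j) h)]
  refine ⟨t, hco, ?_, ?_⟩
  · intro hz j
    by_contra hneg
    push Not at hneg
    have h1 := hval j
    have h2 : ∑ l, A (j, s j) l * z l ≤ b (j, s j) := hz (j, s j)
    have h3 := mul_pos_of_neg_of_neg hneg (hon j)
    linarith
  · intro hz j
    have h1 := hval j
    have h2 : ∑ l, A (j, s j) l * z l = b (j, s j) := hz j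
    rw [h2, sub_self] at h1
    rcases mul_eq_zero.1 h1.symm with h3 | h3
    · exact h3
    · exact absurd h3 (hon j).ne

variable (hc : IsCube A b)
include hc

lemma unique_vertex {s : Fin n → Bool} {x z : Fin n → ℝ} (hx : VertexAt A b s x)
    (hz : VertexAt A b s z) : z = x := by
  choose y hy using fun i => hc.2 (H454R3.flip s i)
  obtain ⟨t, h1, _, h2⟩ := coords hx y hy z
  have h3 := h2 fun i => (hz.2 i (s i)).2 rfl
  funext l
  have := h1 l
  simp only [h3, zero_mul, sum_const_zero] at this
  linarith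

lemma nb_iff {s : Fin n → Bool} {x : Fin n → ℝ} (hx : VertexAt A b s x) (i : Fin n)
    (y : Fin n → ℝ) : Nb A b x i y ↔ VertexAt A b (H454R3.flip s i) y := by
  constructor
  · rintro ⟨h1, h2, h3⟩
    obtain ⟨s', hs'⟩ := hc.1 y h1
    have h4 : ∀ j, j ≠ i → s' j = s j := fun j hj =>
      ((hs'.2 j (s j)).1 (h3 j hj (s j) ((hx.2 j (s j)).2 rfl))).symm
    have h5 : s' i ≠ s i := by
      intro h5
      apply h2
      have h6 : s' = s := by
        funext j
        by_cases hj : j = i
        · rw [hj]; exact h5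
        · exact h4 j hj
      subst h6
      exact unique_vertex hc hx hs'
    have h6 : s' = H454R3.flip s i := by
      funext j
      by_cases hj : j = i
      · subst hj
        unfold H454R3.flip
        rw [Function.update_self]
        revert h5
        cases s' j <;> cases s j <;> simp
      · rw [h4 j hj, flip_of_ne _ hj]
    rw [← h6]
    exact hs'
  · intro hy
    refine ⟨hy.1, ?_, ?_⟩
    · rintro rfl
      have h1 := hx.sg.symm.trans hy.sg
      have h2 := congrFun h1 i
      unfold H454R3.flip at h2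
      rw [Function.update_self] at h2
      revert h2
      cases s i <;> simp
    · intro j hj e he
      rw [hx.2 j e] at he
      rw [hy.2 j e, flip_of_ne _ hj]
      exact he

/-- a vertex without improving neighbour is optimal -/
lemma optimal {c : Fin n → ℝ} {s : Fin n → Bool} {x : Fin n → ℝ} (hx : VertexAt A b s x)
    (h : impr A b c x = ∅) (z : Fin n → ℝ) (hz : z ∈ poly A b) :
    ∑ l, c l * z l ≤ ∑ l, c l * x l := by
  classical
  choose y hy using fun i => hc.2 (H454R3.flip s i)
  obtain ⟨t, h1, h2, _⟩ := coords hx y hy z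
  have h3 : ∀ i, ∑ l, c l * y i l ≤ ∑ l, c l * x l := by
    intro i
    by_contra hcon
    push Not at hcon
    have : i ∈ impr A b c x := by
      unfold impr
      rw [mem_filter]
      exact ⟨mem_univ _, y i, (nb_iff hc hx i (y i)).2 (hy i), hcon⟩
    rw [h] at this
    exact absurd this (notMem_empty i)
  have h4 : ∑ l, c l * z l - ∑ l, c l * x l = ∑ i, t i * (∑ l, c l * y i l - ∑ l, c l * x l) := by
    rw [← sum_sub_distrib]
    simp only [← mul_sub, h1, ← sum_sub_distrib, mul_sum]
    rw [sum_comm]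
    refine sum_congr rfl fun i _ => sum_congr rfl fun l _ => ?_
    ring
  have h5 : ∑ i, t i * (∑ l, c l * y i l - ∑ l, c l * x l) ≤ 0 :=
    sum_nonpos fun i _ => mul_nonpos_of_nonneg_of_nonpos (h2 hz i) (sub_nonpos.2 (h3 i))
  linarith

theorem lp_path (hn : 0 < n) {m : ℕ} (c : Fin n → ℝ) (hm : LPBlocks m A b c)
    (x₀ : Fin n → ℝ) (hx₀ : x₀ ∈ (poly A b).extremePoints ℝ) :
    ∃ (L : ℕ) (x : ℕ → Fin n → ℝ), x 0 = x₀ ∧
      (∀ k < L, ∀ y, Pivot A b c (rule hn) (x k) y ↔ y = x (k + 1)) ∧
      (∀ y ∈ poly A b, ∑ l, c l * y l ≤ ∑ l, c l * x L l) ∧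
      m * L ≤ n * ((2 ^ m - 1) * 2 ^ Nat.clog 2 n) := by
  classical
  choose V hV using hc.2
  have hsgV : ∀ s, sg A b (V s) = s := fun s => (hV s).sg
  set val : (Fin n → Bool) → ℝ := fun s => ∑ l, c l * V s l with hval
  set f : (Fin n → Bool) → ℕ := fun s => (univ.filter fun t => val t < val s).card with hf
  have hlt : ∀ s t, f s < f t ↔ val s < val t := by
    intro s t
    constructor
    · intro h
      by_contra hcon
      push Not at hcon
      have : f t ≤ f s := card_le_card fun u hu => by
        rw [mem_filter] at hu ⊢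
        exact ⟨hu.1, hu.2.trans_le hcon⟩
      omega
    · intro h
      refine card_lt_card ((ssubset_iff_of_subset ?_).2 ⟨s, ?_, ?_⟩)
      · intro u hu
        rw [mem_filter] at hu ⊢
        exact ⟨hu.1, hu.2.trans h⟩
      · rw [mem_filter]; exact ⟨mem_univ _, h⟩
      · rw [mem_filter]; rintro ⟨_, h'⟩; exact lt_irrefl _ h'
  have himp : ∀ s, impr A b c (V s) = improving f s := by
    intro s
    ext i
    unfold impr improving
    rw [mem_filter, mem_filter, hlt]
    refine and_congr_right fun _ => ?_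
    constructor
    · rintro ⟨y, h1, h2⟩
      rw [nb_iff hc (hV s)] at h1
      rw [unique_vertex hc (hV (H454R3.flip s i)) h1] at h2
      exact h2
    · intro h
      exact ⟨V (H454R3.flip s i), (nb_iff hc (hV s) i _).2 (hV _), h⟩
  have hB : Blocks m f := by
    intro U x hU
    obtain ⟨D, h1, h2, h3, h4⟩ := hm U (V x) (hV x).1 hU
    refine ⟨D, h1, h2, h3, fun y z hy hz hyz i hi => ?_⟩
    rw [← himp, ← himp]
    exact h4 (V y) (hV y).1 (V z) (hV z).1 (fun j hj => by rw [hsgV, hsgV, hy j hj])
      (fun j hj => by rw [hsgV, hsgV, hz j hj]) (fun j hj => by rw [hsgV, hsgV, hyz j hj]) i hi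
  obtain ⟨s₀, hs₀⟩ := hc.1 x₀ hx₀
  obtain ⟨L, v, h0, h1, h2, h3⟩ := path hn hB s₀
  refine ⟨L, fun k => V (v k), ?_, ?_, ?_, h3⟩
  · show V (v 0) = x₀
    rw [h0]
    exact unique_vertex hc hs₀ (hV s₀)
  · intro k hk y
    obtain ⟨h4, h5⟩ := h1 k hk
    unfold Pivot
    rw [hsgV, himp, nb_iff hc (hV (v k)), ← h5]
    constructor
    · rintro ⟨_, h⟩
      exact unique_vertex hc (hV (v (k + 1))) h
    · rintro rfl
      exact ⟨h4, hV _⟩
  · exact optimal hc (hV (v L)) (by rw [himp, h2])
end

end Pool.Agent.TH628.PR
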