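import Pool.Agent.H454R3.Defs
set_option autoImplicit false

/-!
# Every deterministic rule, with unlimited memory, needs `n (n + 1) / 2` steps on a combed cube
-/

namespace Pool.Agent.TH628.PR

open Finset Pool.Agent.H454R3

variable {n : ℕ}

/-- what a rule with full memory has seen when it is at `v k`: the vertices and their sets of
improving directions, the current one first -/
def seen (f : (Fin n → Bool) → ℕ) (v : ℕ → Fin n → Bool) :
    ℕ → List ((Fin n → Bool) × Finset (Fin n))
  | 0 => [(v 0, improving f (v 0))]
  | k + 1 => (v (k + 1), improving f (v (k + 1))) :: seen f v k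

/-- one step of a rule with memory -/
def ms (ρ : List ((Fin n → Bool) × Finset (Fin n)) → Fin n) (imp : (Fin n → Bool) → Finset (Fin n))
    (p : List ((Fin n → Bool) × Finset (Fin n)) × (Fin n → Bool)) :
    List ((Fin n → Bool) × Finset (Fin n)) × (Fin n → Bool) :=
  ((p.2, imp p.2) :: p.1, H454R3.flip p.2 (ρ ((p.2, imp p.2) :: p.1)))

lemma ms_congr (ρ : List ((Fin n → Bool) × Finset (Fin n)) → Fin n)
    {imp imp' : (Fin n → Bool) → Finset (Fin n)}
    {p : List ((Fin n → Bool) × Finset (Fin n)) × (Fin n → Bool)} (h : imp p.2 = imp' p.2) :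
    ms ρ imp p = ms ρ imp' p := by
  unfold ms
  rw [h]

lemma iter_congr (ρ : List ((Fin n → Bool) × Finset (Fin n)) → Fin n)
    {imp imp' : (Fin n → Bool) → Finset (Fin n)}
    {p : List ((Fin n → Bool) × Finset (Fin n)) × (Fin n → Bool)} (K : ℕ)
    (h : ∀ k < K, imp ((ms ρ imp)^[k] p).2 = imp' ((ms ρ imp)^[k] p).2) :
    (ms ρ imp')^[K] p = (ms ρ imp)^[K] p := by
  induction K with
  | zero => rfl
  | succ K ih =>
    rw [Function.iterate_succ_apply', Function.iterate_succ_apply', ih fun k hk => h k (by omega)]
    exact (ms_congr ρ (h K (by omega))).symm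

lemma flip_at (x : Fin n → Bool) (i : Fin n) : H454R3.flip x i i = !x i := by
  unfold H454R3.flip; rw [Function.update_self]

lemma flip_off (x : Fin n → Bool) {i j : Fin n} (h : j ≠ i) : H454R3.flip x i j = x j :=
  Function.update_of_ne h _ _

section
variable (ρ : List ((Fin n → Bool) × Finset (Fin n)) → Fin n)
  (hρ : ∀ (x : Fin n → Bool) (S : Finset (Fin n)) l, S.Nonempty → ρ ((x, S) :: l) ∈ S)
include hρ

/-- the first phase: every direction in `U` is flipped once -/
lemma phase0 (U : Finset (Fin n)) (x : Fin n → Bool)
    (l : List ((Fin n → Bool) × Finset (Fin n))) (k : ℕ) (hk : k ≤ U.card) :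
    (∀ j, j ∉ U → ((ms ρ fun y => U.filter fun i => y i = x i)^[k] (l, x)).2 j = x j) ∧
    (U.filter fun i => ((ms ρ fun y => U.filter fun i => y i = x i)^[k] (l, x)).2 i = x i).card =
      U.card - k := by
  induction k with
  | zero => simp
  | succ k ih =>
    obtain ⟨h1, h2⟩ := ih (by omega)
    rw [Function.iterate_succ_apply']
    set p := (ms ρ fun y => U.filter fun i => y i = x i)^[k] (l, x) with hp
    have hne : (U.filter fun i => p.2 i = x i).Nonempty := by
      rw [← card_pos, h2]; omega
    have h3 := hρ p.2 _ p.1 hne
    have h4 : ((ms ρ fun y => U.filter fun i => y i = x i) p).2 =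
      H454R3.flip p.2 (ρ ((p.2, U.filter fun i => p.2 i = x i) :: p.1)) := rfl
    rw [h4]
    generalize ρ ((p.2, U.filter fun i => p.2 i = x i) :: p.1) = j at h3 ⊢
    have h5 : j ∈ U ∧ p.2 j = x j := mem_filter.1 h3
    constructor
    · intro i hi
      rw [flip_off _ (fun e : i = j => hi (e ▸ h5.1)), h1 i hi]
    · have h6 : (U.filter fun i => H454R3.flip p.2 j i = x i) =
          (U.filter fun i => p.2 i = x i).erase j := by
        ext i
        rw [mem_erase, mem_filter, mem_filter]
        by_cases hij : i = j
        · subst hij
          rw [flip_at, h5.2]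
          simp
        · rw [flip_off _ hij]
          tauto
      rw [h6, card_erase_of_mem h3, h2]
      omega

lemma build (m : ℕ) : ∀ (U : Finset (Fin n)) (x : Fin n → Bool)
    (l : List ((Fin n → Bool) × Finset (Fin n))), U.card = m → ∃ F : (Fin n → Bool) → ℕ,
      (∀ (W : Finset (Fin n)) (z : Fin n → Bool), W ⊆ U → W.Nonempty → (∀ j, j ∉ U → z j = x j) →
        ∃ i ∈ W, ∃ b : Bool, ∀ y : Fin n → Bool, (∀ j, j ∉ W → y j = z j) →
          (F y < F (H454R3.flip y i) ↔ y i = b)) ∧
      ∃ L : ℕ, 2 * L = m * (m + 1) ∧
        (∀ k ≤ L, ∀ j, j ∉ U →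
          ((ms ρ fun y => U.filter fun i => F y < F (H454R3.flip y i))^[k] (l, x)).2 j = x j) ∧
        (∀ k < L, (U.filter fun i =>
          F ((ms ρ fun y => U.filter fun i => F y < F (H454R3.flip y i))^[k] (l, x)).2 <
          F (H454R3.flip ((ms ρ fun y => U.filter fun i => F y < F (H454R3.flip y i))^[k]
            (l, x)).2 i)).Nonempty) ∧
        (U.filter fun i =>
          F ((ms ρ fun y => U.filter fun i => F y < F (H454R3.flip y i))^[L] (l, x)).2 <
          F (H454R3.flip ((ms ρ fun y => U.filter fun i => F y < F (H454R3.flip y i))^[L]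
            (l, x)).2 i)) = ∅ := by
  induction m with
  | zero =>
    intro U x l hU
    rw [card_eq_zero] at hU
    subst hU
    refine ⟨fun _ => 0, ?_, 0, rfl, ?_, ?_, ?_⟩
    · intro W z hW hne
      rw [subset_empty.1 hW] at hne
      exact absurd hne (by simp)
    · intro k hk j _
      have : k = 0 := by omega
      subst this
      rfl
    · intro k hk; omega
    · simp
  | succ m ih =>
    intro U x l hU
    set imp0 : (Fin n → Bool) → Finset (Fin n) := fun y => U.filter fun i => y i = x i with himp0
    have hph := phase0 ρ hρ U x l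
    -- the last direction
    obtain ⟨h1, h2⟩ := hph m (by omega)
    rw [hU, show m + 1 - m = 1 by omega, card_eq_one] at h2
    obtain ⟨s, hs⟩ := h2
    set q := (ms ρ imp0)^[m] (l, x) with hq
    have hsU : s ∈ U := by
      have : s ∈ U.filter fun i => q.2 i = x i := by rw [hs]; simp
      exact (mem_filter.1 this).1
    have hqs : q.2 s = x s := by
      have : s ∈ U.filter fun i => q.2 i = x i := by rw [hs]; simp
      exact (mem_filter.1 this).2
    -- `s` is not flipped before
    have hmono : ∀ k : ℕ, k ≤ m → ∀ i ∈ U, ((ms ρ imp0)^[m] (l, x)).2 i = x i →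
        ((ms ρ imp0)^[m - k] (l, x)).2 i = x i := by
      intro k
      induction k with
      | zero => intro _ i _ h; exact h
      | succ k ihk =>
        intro hk i hi h
        have h3 := ihk (by omega) i hi h
        have e : m - k = (m - (k + 1)) + 1 := by omega
        rw [e, Function.iterate_succ_apply'] at h3
        obtain ⟨_, h5⟩ := hph (m - (k + 1)) (by omega)
        set p := (ms ρ imp0)^[m - (k + 1)] (l, x) with hp
        have hne : (imp0 p.2).Nonempty := by
          rw [← card_pos]
          have : (imp0 p.2).card = U.card - (m - (k + 1)) := h5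
          omega
        have h6 := hρ p.2 _ p.1 hne
        have h7 : (ms ρ imp0 p).2 = H454R3.flip p.2 (ρ ((p.2, imp0 p.2) :: p.1)) := rfl
        rw [h7] at h3
        generalize ρ ((p.2, imp0 p.2) :: p.1) = j at h3 h6
        by_cases hij : i = j
        · subst hij
          exact (mem_filter.1 h6).2
        · rwa [flip_off _ hij] at h3
    have hslow : ∀ k ≤ m, ((ms ρ imp0)^[k] (l, x)).2 s = x s := by
      intro k hk
      have h3 := hmono (m - k) (by omega) s hsU hqs
      rwa [show m - (m - k) = k by omega] at h3
    -- the end of the first phase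
    set q' := (ms ρ imp0)^[m + 1] (l, x) with hq'
    have hq1 : q'.2 = H454R3.flip q.2 s := by
      rw [hq', Function.iterate_succ_apply']
      show H454R3.flip q.2 (ρ ((q.2, imp0 q.2) :: q.1)) = _
      have h3 : imp0 q.2 = {s} := hs
      have h4 := hρ q.2 (imp0 q.2) q.1 (by rw [h3]; simp)
      rw [h3, mem_singleton] at h4
      rw [h3, h4]
    have hq's : q'.2 s = !x s := by rw [hq1, flip_at, hqs]
    have hq'out : ∀ j, j ∉ U → q'.2 j = x j := by
      intro j hj
      rw [hq1, flip_off _ (fun e : j = s => hj (e ▸ hsU)), h1 j hj]
    obtain ⟨F', hc, L', hL, hin, hne, hend⟩ := ih (U.erase s) q'.2 q'.1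
      (by rw [card_erase_of_mem hsU, hU]; rfl)
    set F : (Fin n → Bool) → ℕ := fun y =>
      if y s = x s then ((U.erase s).filter fun j => y j ≠ x j).card else m + 1 + F' y with hF
    have hcard : ∀ y : Fin n → Bool, ((U.erase s).filter fun j => y j ≠ x j).card ≤ m := by
      intro y
      have h3 := card_filter_le (U.erase s) fun j => y j ≠ x j
      rw [card_erase_of_mem hsU, hU] at h3
      exact h3
    -- orientation
    have o1 : ∀ y : Fin n → Bool, (F y < F (H454R3.flip y s) ↔ y s = x s) := by
      intro y
      have h3 := hcard y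
      have h4 := hcard (H454R3.flip y s)
      simp only [hF]
      rw [flip_at]
      by_cases h5 : y s = x s
      · rw [if_pos h5, if_neg (by rw [h5]; cases x s <;> simp)]
        constructor
        · intro _; exact h5
        · intro _; omega
      · rw [if_neg h5, if_pos (by
          revert h5
          cases y s <;> cases x s <;> simp)]
        constructor
        · intro h6; omega
        · intro h6; exact absurd h6 h5
    have o2 : ∀ y : Fin n → Bool, y s = x s → ∀ i ∈ U, i ≠ s →
        (F y < F (H454R3.flip y i) ↔ y i = x i) := by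
      intro y hy i hi his
      simp only [hF]
      rw [flip_off _ his.symm, if_pos hy, if_pos hy]
      by_cases h5 : y i = x i
      · have h6 : ((U.erase s).filter fun j => H454R3.flip y i j ≠ x j) =
            insert i ((U.erase s).filter fun j => y j ≠ x j) := by
          ext j
          rw [mem_insert, mem_filter, mem_filter]
          by_cases hji : j = i
          · subst hji
            rw [flip_at, h5]
            simp [hi, his]
          · rw [flip_off _ hji]
            tauto
        rw [h6, card_insert_of_notMem (by rw [mem_filter]; simp [h5])]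
        simp [h5]
      · have h6 : ((U.erase s).filter fun j => H454R3.flip y i j ≠ x j) =
            ((U.erase s).filter fun j => y j ≠ x j).erase i := by
          ext j
          rw [mem_erase, mem_filter, mem_filter]
          by_cases hji : j = i
          · subst hji
            rw [flip_at]
            have : (!y j) = x j := by
              revert h5
              cases y j <;> cases x j <;> simp
            simp [this]
          · rw [flip_off _ hji]
            tauto
        rw [h6]
        constructor
        · intro h7
          have := card_erase_le (s := (U.erase s).filter fun j => y j ≠ x j) (a := i)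
          omega
        · intro h7; exact absurd h7 h5
    have o3 : ∀ y : Fin n → Bool, y s ≠ x s → ∀ i, i ≠ s →
        (F y < F (H454R3.flip y i) ↔ F' y < F' (H454R3.flip y i)) := by
      intro y hy i his
      simp only [hF]
      rw [flip_off _ his.symm, if_neg hy, if_neg hy]
      omega
    have i1 : ∀ y : Fin n → Bool, y s = x s →
        (U.filter fun i => F y < F (H454R3.flip y i)) = imp0 y := by
      intro y hy
      refine filter_congr fun i hi => ?_
      by_cases his : i = s
      · subst his; exact o1 y
      · exact o2 y hy i hi his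
    have i2 : ∀ y : Fin n → Bool, y s ≠ x s →
        (U.filter fun i => F y < F (H454R3.flip y i)) =
        (U.erase s).filter fun i => F' y < F' (H454R3.flip y i) := by
      intro y hy
      ext i
      rw [mem_filter, mem_filter, mem_erase]
      by_cases his : i = s
      · subst his
        rw [o1 y]
        simp [hy]
      · rw [o3 y hy i his]
        tauto
    refine ⟨F, ?_, m + 1 + L', ?_, ?_⟩
    · intro W z hW hWne hz
      by_cases hsW : s ∈ W
      · exact ⟨s, hsW, x s, fun y _ => o1 y⟩
      by_cases hzs : z s = x s
      · obtain ⟨i, hi⟩ := hWne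
        have his : i ≠ s := fun e => hsW (e ▸ hi)
        refine ⟨i, hi, x i, fun y hy => ?_⟩
        exact o2 y (by rw [hy s hsW]; exact hzs) i (hW hi) his
      · obtain ⟨i, hi, b, hb⟩ := hc W z (fun i hi => mem_erase.2 ⟨fun e => hsW (e ▸ hi), hW hi⟩)
          hWne (by
            intro j hj
            by_cases hjs : j = s
            · subst hjs
              rw [hq's]
              revert hzs
              cases z j <;> cases x j <;> simp
            · have hjU : j ∉ U := fun h => hj (mem_erase.2 ⟨hjs, h⟩)
              rw [hz j hjU, hq'out j hjU])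
        refine ⟨i, hi, b, fun y hy => ?_⟩
        have his : i ≠ s := fun e => hsW (e ▸ hi)
        rw [o3 y (by rw [hy s hsW]; exact hzs) i his]
        exact hb y hy
    · nlinarith
    · -- the run
      set imp : (Fin n → Bool) → Finset (Fin n) :=
        fun y => U.filter fun i => F y < F (H454R3.flip y i) with himp
      set imp' : (Fin n → Bool) → Finset (Fin n) :=
        fun y => (U.erase s).filter fun i => F' y < F' (H454R3.flip y i) with himp'
      have r1 : ∀ k ≤ m + 1, (ms ρ imp)^[k] (l, x) = (ms ρ imp0)^[k] (l, x) := by
        intro k hk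
        refine iter_congr ρ k fun k' hk' => ?_
        exact (i1 _ (hslow k' (by omega))).symm
      have hout' : ∀ k ≤ L', ((ms ρ imp')^[k] q').2 s ≠ x s := by
        intro k hk
        have h3 := hin k hk s (notMem_erase s U)
        have h4 : ((ms ρ imp')^[k] q').2 s = q'.2 s := h3
        rw [h4, hq's]
        cases x s <;> simp
      have r2 : ∀ k ≤ L', (ms ρ imp)^[m + 1 + k] (l, x) = (ms ρ imp')^[k] q' := by
        intro k hk
        rw [add_comm, Function.iterate_add_apply, r1 (m + 1) le_rfl]
        refine iter_congr ρ k fun k' hk' => ?_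
        exact (i2 _ (hout' k' (by omega))).symm
      refine ⟨?_, ?_, ?_⟩
      · intro k hk j hj
        by_cases hkm : k ≤ m + 1
        · rw [r1 k hkm]
          exact (hph k (by omega)).1 j hj
        · obtain ⟨k', rfl⟩ : ∃ k', k = m + 1 + k' := ⟨k - (m + 1), by omega⟩
          rw [r2 k' (by omega)]
          have h3 := hin k' (by omega) j fun h => hj (mem_of_mem_erase h)
          have h4 : ((ms ρ imp')^[k'] q').2 j = q'.2 j := h3
          rw [h4, hq'out j hj]
      · intro k hk
        by_cases hkm : k < m + 1
        · rw [r1 k hkm.le]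
          have h3 := (hph k (by omega)).2
          have h4 := i1 _ (hslow k (by omega))
          have h5 : (imp0 ((ms ρ imp0)^[k] (l, x)).2).Nonempty := by
            rw [← card_pos]
            have : (imp0 ((ms ρ imp0)^[k] (l, x)).2).card = U.card - k := h3
            omega
          rw [← h4] at h5
          exact h5
        · obtain ⟨k', rfl⟩ : ∃ k', k = m + 1 + k' := ⟨k - (m + 1), by omega⟩
          rw [r2 k' (by omega)]
          have h3 := hne k' (by omega)
          have h4 := i2 _ (hout' k' (by omega))
          have h5 : (imp' ((ms ρ imp')^[k'] q').2).Nonempty := h3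
          rw [h4]
          exact h5
      · rw [r2 L' le_rfl]
        have h4 := i2 _ (hout' L' le_rfl)
        have h5 : imp' ((ms ρ imp')^[L'] q').2 = ∅ := hend
        rw [h4]
        exact h5

theorem lower (x₀ : Fin n → Bool) : ∃ f : (Fin n → Bool) → ℕ, Combed f ∧
    ∃ (L : ℕ) (v : ℕ → Fin n → Bool), v 0 = x₀ ∧
      (∀ k < L, (improving f (v k)).Nonempty ∧ v (k + 1) = H454R3.flip (v k) (ρ (seen f v k))) ∧
      improving f (v L) = ∅ ∧ 2 * L = n * (n + 1) := by
  obtain ⟨F, hc, L, hL, _, hne, hend⟩ := build ρ hρ n univ x₀ [] (by simp)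
  have himp : (fun y => univ.filter fun i => F y < F (H454R3.flip y i)) = improving F := rfl
  rw [himp] at hne hend
  refine ⟨F, ?_, L, fun k => ((ms ρ (improving F))^[k] ([], x₀)).2, rfl, ?_, hend, hL⟩
  · intro W z hW
    obtain ⟨i, hi, b, hb⟩ := hc W z (subset_univ _) hW (fun j hj => absurd (mem_univ j) hj)
    refine ⟨i, hi, b, fun y hy => ?_⟩
    rw [← hb y hy]
    unfold improving
    rw [mem_filter]
    simp
  · intro k hk
    refine ⟨hne k hk, ?_⟩
    have key : ∀ k, seen F (fun k => ((ms ρ (improving F))^[k] ([], x₀)).2) k =
        ((ms ρ (improving F))^[k + 1] ([], x₀)).1 := by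
      intro k
      induction k with
      | zero => rfl
      | succ k ih =>
        rw [seen, ih, Function.iterate_succ_apply' (ms ρ (improving F)) (k + 1)]
        rfl
    rw [key]
    show ((ms ρ (improving F))^[k + 1] ([], x₀)).2 = _
    rw [Function.iterate_succ_apply']
    rfl
end

end Pool.Agent.TH628.PR
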