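import Pool.Agent.H454R3.Defs
set_option autoImplicit false

/-!
# A fair pivot rule without memory: the parities of the vertex are the rotors

The coordinates `i < n ≤ 2 ^ k` are the leaves of the binary tree of depth `k`; the nodes of height
`h` are the blocks `{i : i / 2 ^ h = a}`. Every node prefers its left or its right child according
to the parity of the number of ones of the vertex in its block. The rule walks down from the root
and always goes to the preferred child if it contains an improving direction and to the other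
child otherwise.
-/

namespace Pool.Agent.TH628.PR

open Finset Pool.Agent.H454R3

variable {n : ℕ}

/-- the parity of the number of ones of `x` in the block `{i : i / 2 ^ h = a}` -/
def par (h a : ℕ) (x : Fin n → Bool) : ℕ :=
  (univ.filter fun i : Fin n => i.val / 2 ^ h = a ∧ x i = true).card % 2

/-- the walk down the tree from the node `a` of height `h` -/
def walk (x : Fin n → Bool) (S : Finset (Fin n)) : ℕ → ℕ → ℕ
  | 0, a => a
  | h + 1, a =>
    if ∃ i ∈ S, i.val / 2 ^ h = 2 * a + par (h + 1) a x then
      walk x S h (2 * a + par (h + 1) a x)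
    else walk x S h (2 * a + (1 - par (h + 1) a x))

/-- the number of steps until `i` is chosen is at most `pot k i x` -/
def pot (i : Fin n) (x : Fin n → Bool) : ℕ → ℕ
  | 0 => 0
  | h + 1 => 2 * pot i x h +
      if i.val / 2 ^ h = 2 * (i.val / 2 ^ (h + 1)) + par (h + 1) (i.val / 2 ^ (h + 1)) x then 0
      else 1

lemma par_lt (h a : ℕ) (x : Fin n → Bool) : par h a x < 2 := Nat.mod_lt _ (by norm_num)

lemma pot_lt (i : Fin n) (x : Fin n → Bool) (h : ℕ) : pot i x h < 2 ^ h := by
  induction h with
  | zero => simp [pot]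
  | succ h ih =>
    rw [pot, pow_succ]
    split_ifs <;> omega

lemma div_child (m h : ℕ) : m / 2 ^ h = 2 * (m / 2 ^ (h + 1)) ∨
    m / 2 ^ h = 2 * (m / 2 ^ (h + 1)) + 1 := by
  rw [pow_succ, ← Nat.div_div_eq_div_mul]
  omega

lemma walk_spec (x : Fin n → Bool) (S : Finset (Fin n)) (h : ℕ) : ∀ a : ℕ,
    (∃ i ∈ S, i.val / 2 ^ h = a) → ∃ j ∈ S, j.val = walk x S h a ∧ j.val / 2 ^ h = a := by
  induction h with
  | zero =>
    rintro a ⟨i, hi, h⟩
    have h1 : i.val = a := by simpa using h
    exact ⟨i, hi, by rw [walk, h1], h⟩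
  | succ h ih =>
    rintro a ⟨i, hi, h1⟩
    have key : ∀ c : ℕ, (c = 2 * a ∨ c = 2 * a + 1) → (∃ i ∈ S, i.val / 2 ^ h = c) →
        ∃ j ∈ S, j.val = walk x S h c ∧ j.val / 2 ^ (h + 1) = a := by
      intro c hc h2
      obtain ⟨j, hj, h3, h4⟩ := ih c h2
      refine ⟨j, hj, h3, ?_⟩
      rcases div_child j.val h with h5 | h5 <;> omega
    have hp := par_lt (h + 1) a x
    rw [walk]
    split_ifs with h2
    · exact key _ (by omega) h2
    · refine key _ (by omega) ⟨i, hi, ?_⟩
      have h3 : i.val / 2 ^ h ≠ 2 * a + par (h + 1) a x := fun e => h2 ⟨i, hi, e⟩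
      rcases div_child i.val h with h5 | h5 <;> omega

lemma par_flip_out (h a : ℕ) (x : Fin n → Bool) (j : Fin n) (hj : j.val / 2 ^ h ≠ a) :
    par h a (flip x j) = par h a x := by
  unfold par
  congr 2
  refine filter_congr fun i _ => ?_
  refine and_congr_right fun hi => ?_
  have : i ≠ j := fun e => hj (e ▸ hi)
  unfold H454R3.flip
  rw [Function.update_of_ne this]

lemma par_flip_in (h a : ℕ) (x : Fin n → Bool) (j : Fin n) (hj : j.val / 2 ^ h = a) :
    par h a (flip x j) = 1 - par h a x := by
  unfold par
  have h1 : ∀ y : Fin n → Bool,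
      (univ.filter fun i : Fin n => i.val / 2 ^ h = a ∧ y i = true).card =
      ((univ.filter fun i : Fin n => i.val / 2 ^ h = a ∧ y i = true).erase j).card +
        if y j = true then 1 else 0 := by
    intro y
    split_ifs with h2
    · rw [card_erase_of_mem (by simp [hj, h2])]
      have : 0 < (univ.filter fun i : Fin n => i.val / 2 ^ h = a ∧ y i = true).card :=
        card_pos.2 ⟨j, by simp [hj, h2]⟩
      omega
    · rw [erase_eq_of_notMem (by simp [h2])]
      rfl
  have h2 : (univ.filter fun i : Fin n => i.val / 2 ^ h = a ∧ flip x j i = true).erase j =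
      (univ.filter fun i : Fin n => i.val / 2 ^ h = a ∧ x i = true).erase j := by
    ext i
    simp only [mem_erase, mem_filter, mem_univ, true_and]
    refine and_congr_right fun hij => ?_
    unfold H454R3.flip
    rw [Function.update_of_ne hij]
  rw [h1 (flip x j), h2, h1 x]
  have h3 : flip x j j = !x j := by unfold H454R3.flip; rw [Function.update_self]
  rw [h3]
  generalize ((univ.filter fun i : Fin n => i.val / 2 ^ h = a ∧ x i = true).erase j).card = c
  cases x j <;> simp <;> omega

lemma pot_flip_out (i j : Fin n) (x : Fin n → Bool) (h : ℕ) (hij : j.val / 2 ^ h ≠ i.val / 2 ^ h) :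
    pot i (flip x j) h = pot i x h := by
  induction h with
  | zero => rfl
  | succ h ih =>
    have h1 : j.val / 2 ^ h ≠ i.val / 2 ^ h := by
      intro e
      apply hij
      rw [pow_succ, ← Nat.div_div_eq_div_mul, ← Nat.div_div_eq_div_mul, e]
    rw [pot, pot, ih h1, par_flip_out _ _ _ _ hij]

/-- the potential goes down as long as `i` is improving and not chosen -/
lemma pot_walk (i j : Fin n) (x : Fin n → Bool) (S : Finset (Fin n)) (hi : i ∈ S) (hij : j ≠ i)
    (h : ℕ) : ∀ a : ℕ, i.val / 2 ^ h = a → j.val / 2 ^ h = a → j.val = walk x S h a →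
      pot i (flip x j) h < pot i x h := by
  induction h with
  | zero =>
    intro a h1 h2 _
    exfalso
    apply hij
    apply Fin.ext
    simp at h1 h2
    omega
  | succ h ih =>
    intro a h1 h2 h3
    have hp := par_lt (h + 1) a x
    have hflip := par_flip_in (h + 1) a x j h2
    rw [pot, pot, h1, hflip]
    rw [walk] at h3
    have hci := div_child i.val h
    rw [h1] at hci
    by_cases h4 : i.val / 2 ^ h = 2 * a + par (h + 1) a x
    · -- the side of `i` is preferred
      rw [if_pos ⟨i, hi, h4⟩] at h3
      have h5 : j.val / 2 ^ h = 2 * a + par (h + 1) a x := by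
        obtain ⟨j', _, h6, h7⟩ := walk_spec x S h _ ⟨i, hi, h4⟩
        have : j' = j := Fin.ext (by omega)
        rw [← this]; exact h7
      have h6 := ih _ h4 h5 h3
      rw [if_neg (by omega), if_pos h4]
      omega
    · have h5 : i.val / 2 ^ h = 2 * a + (1 - par (h + 1) a x) := by omega
      rw [if_pos h5, if_neg h4]
      split_ifs at h3 with h6
      · have h7 : j.val / 2 ^ h = 2 * a + par (h + 1) a x := by
          obtain ⟨j', _, h8, h9⟩ := walk_spec x S h _ h6
          have : j' = j := Fin.ext (by omega)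
          rw [← this]; exact h9
        rw [pot_flip_out i j x h (by omega)]
        omega
      · have h7 : j.val / 2 ^ h = 2 * a + (1 - par (h + 1) a x) := by
          obtain ⟨j', _, h8, h9⟩ := walk_spec x S h _ ⟨i, hi, h5⟩
          have : j' = j := Fin.ext (by omega)
          rw [← this]; exact h9
        have h8 := ih _ h5 h7 h3
        omega

/-- **the parity rule**: it sees the current vertex `x` and the set `S` of improving directions -/
def rule (hn : 0 < n) (x : Fin n → Bool) (S : Finset (Fin n)) : Fin n :=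
  if h : walk x S (Nat.clog 2 n) 0 < n then ⟨walk x S (Nat.clog 2 n) 0, h⟩ else ⟨0, hn⟩

lemma div_root (i : Fin n) : i.val / 2 ^ Nat.clog 2 n = 0 :=
  Nat.div_eq_of_lt (i.2.trans_le (Nat.le_pow_clog (by norm_num) n))

lemma rule_spec (hn : 0 < n) (x : Fin n → Bool) (S : Finset (Fin n)) (hS : S.Nonempty) :
    rule hn x S ∈ S ∧ (rule hn x S).val = walk x S (Nat.clog 2 n) 0 := by
  obtain ⟨i, hi⟩ := hS
  obtain ⟨j, hj, h1, _⟩ := walk_spec x S (Nat.clog 2 n) 0 ⟨i, hi, div_root i⟩
  have h2 : walk x S (Nat.clog 2 n) 0 < n := h1 ▸ j.2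
  have h3 : rule hn x S = j := by
    unfold rule
    rw [dif_pos h2]
    exact Fin.ext h1.symm
  rw [h3]
  exact ⟨hj, h1⟩

/-- the number of further steps for which `i` can be avoided while it is improving -/
def pt (i : Fin n) (x : Fin n → Bool) : ℕ := pot i x (Nat.clog 2 n)

lemma pt_lt (i : Fin n) (x : Fin n → Bool) : pt i x < 2 ^ Nat.clog 2 n := pot_lt _ _ _

lemma pt_step (hn : 0 < n) (x : Fin n → Bool) (S : Finset (Fin n)) {i : Fin n} (hi : i ∈ S)
    (h : rule hn x S ≠ i) : pt i (flip x (rule hn x S)) < pt i x :=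
  pot_walk i _ x S hi h _ 0 (div_root i) (div_root _) (rule_spec hn x S ⟨i, hi⟩).2

/-- **fairness**: a direction which is improving during `2 ^ ⌈log₂ n⌉` consecutive steps is chosen
in one of them, whatever the other improving directions are -/
lemma fair (hn : 0 < n) (v : ℕ → Fin n → Bool) (S : ℕ → Finset (Fin n)) (a : ℕ) (i : Fin n)
    (hi : ∀ k < 2 ^ Nat.clog 2 n, i ∈ S (a + k))
    (hv : ∀ k < 2 ^ Nat.clog 2 n, v (a + k + 1) = flip (v (a + k)) (rule hn (v (a + k)) (S (a + k)))) :
    ∃ k < 2 ^ Nat.clog 2 n, rule hn (v (a + k)) (S (a + k)) = i := by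
  by_contra hcon
  push Not at hcon
  have key : ∀ k ≤ 2 ^ Nat.clog 2 n, pt i (v (a + k)) + k < 2 ^ Nat.clog 2 n := by
    intro k
    induction k with
    | zero => intro _; exact pt_lt i _
    | succ k ih =>
      intro hk
      have h1 := ih (by omega)
      have h2 := pt_step hn (v (a + k)) (S (a + k)) (hi k (by omega)) (hcon k (by omega))
      rw [← hv k (by omega)] at h2
      have h3 : a + (k + 1) = a + k + 1 := by ring
      rw [h3]
      omega
  have := key _ le_rfl
  omega

end Pool.Agent.TH628.PR
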