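import Pool.Agent.TH628.PR.Rule
set_option autoImplicit false

/-!
# The parity rule is quadratic on combed cubes
-/

namespace Pool.Agent.TH628.PR

open Finset Pool.Agent.H454R3

variable {n : ℕ}

/-- every face `{y : y = x outside U}` with `U ≠ ∅` has a nonempty set `D ⊆ U` of at most `m`
directions such that the improving directions in `D` depend only on the coordinates in `D` -/
def Blocks (m : ℕ) (f : (Fin n → Bool) → ℕ) : Prop :=
  ∀ (U : Finset (Fin n)) (x : Fin n → Bool), U.Nonempty → ∃ D ⊆ U, D.Nonempty ∧ D.card ≤ m ∧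
    ∀ y z : Fin n → Bool, (∀ j, j ∉ U → y j = x j) → (∀ j, j ∉ U → z j = x j) →
      (∀ j ∈ D, y j = z j) → ∀ i ∈ D, (i ∈ improving f y ↔ i ∈ improving f z)

lemma Combed.blocks {f : (Fin n → Bool) → ℕ} (hf : Combed f) : Blocks 1 f := by
  intro U x hU
  obtain ⟨i, hi, b, hb⟩ := hf U x hU
  refine ⟨{i}, by simpa using hi, ⟨i, by simp⟩, by simp, ?_⟩
  intro y z hy hz hyz k hk
  rw [mem_singleton] at hk
  subst hk
  rw [hb y hy, hb z hz, hyz k (by simp)]

/-- one step of the parity rule -/
def stp (hn : 0 < n) (f : (Fin n → Bool) → ℕ) (x : Fin n → Bool) : Fin n → Bool :=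
  if (improving f x).Nonempty then H454R3.flip x (rule hn x (improving f x)) else x

lemma flip_of_ne (x : Fin n → Bool) {i j : Fin n} (h : j ≠ i) : H454R3.flip x i j = x j :=
  Function.update_of_ne h _ _

/-- `y` on `D` and `x` elsewhere -/
def ov (D : Finset (Fin n)) (x y : Fin n → Bool) : Fin n → Bool := fun j => if j ∈ D then y j else x j

/-- the number of better vertices of the `D`-face at `x` -/
def rk (f : (Fin n → Bool) → ℕ) (D : Finset (Fin n)) (x y : Fin n → Bool) : ℕ :=
  (univ.filter fun z : Fin n → Bool => (∀ j, j ∉ D → z j = x j) ∧ f (ov D x y) < f z).card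

lemma card_face (D : Finset (Fin n)) (x : Fin n → Bool) :
    (univ.filter fun z : Fin n → Bool => ∀ j, j ∉ D → z j = x j).card ≤ 2 ^ D.card := by
  rw [← card_powerset]
  refine card_le_card_of_injOn (fun z => D.filter fun j => z j = true) ?_ ?_
  · intro z _
    rw [mem_coe, mem_powerset]
    exact filter_subset _ _
  · intro z hz w hw h
    rw [mem_coe, mem_filter] at hz hw
    funext j
    by_cases hj : j ∈ D
    · have h1 : (j ∈ D.filter fun j => z j = true) ↔ (j ∈ D.filter fun j => w j = true) := by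
        show j ∈ (fun z : Fin n → Bool => D.filter fun j => z j = true) z ↔
          j ∈ (fun z : Fin n → Bool => D.filter fun j => z j = true) w
        rw [h]
      rw [mem_filter, mem_filter] at h1
      have h2 : z j = true ↔ w j = true := by tauto
      revert h2
      cases z j <;> cases w j <;> simp
    · rw [hz.2 j hj, hw.2 j hj]

lemma rk_le (f : (Fin n → Bool) → ℕ) (D : Finset (Fin n)) (x y : Fin n → Bool) :
    rk f D x y ≤ 2 ^ D.card - 1 := by
  have h1 : (univ.filter fun z : Fin n → Bool => (∀ j, j ∉ D → z j = x j) ∧ f (ov D x y) < f z) ⊆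
      (univ.filter fun z : Fin n → Bool => ∀ j, j ∉ D → z j = x j).erase (ov D x y) := by
    intro z hz
    rw [mem_filter] at hz
    rw [mem_erase, mem_filter]
    refine ⟨?_, mem_univ _, hz.2.1⟩
    rintro rfl
    exact lt_irrefl _ hz.2.2
  have h2 : ov D x y ∈ (univ.filter fun z : Fin n → Bool => ∀ j, j ∉ D → z j = x j) := by
    rw [mem_filter]
    refine ⟨mem_univ _, fun j hj => ?_⟩
    unfold ov
    rw [if_neg hj]
  have h3 := card_le_card h1
  rw [card_erase_of_mem h2] at h3
  have h4 := card_face D x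
  unfold rk
  omega

section
variable (hn : 0 < n) {f : (Fin n → Bool) → ℕ} {U D : Finset (Fin n)} {x : Fin n → Bool}

lemma rk_flip_out {y : Fin n → Bool} {j : Fin n} (hj : j ∉ D) :
    rk f D x (H454R3.flip y j) = rk f D x y := by
  have : ov D x (H454R3.flip y j) = ov D x y := by
    funext k
    unfold ov
    split_ifs with hk
    · exact flip_of_ne y fun e => hj (e ▸ hk)
    · rfl
  unfold rk
  rw [this]

lemma rk_flip_in (hDU : D ⊆ U)
    (hD : ∀ y z : Fin n → Bool, (∀ j, j ∉ U → y j = x j) → (∀ j, j ∉ U → z j = x j) →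
      (∀ j ∈ D, y j = z j) → ∀ i ∈ D, (i ∈ improving f y ↔ i ∈ improving f z))
    {y : Fin n → Bool} (hy : ∀ j, j ∉ U → y j = x j) {i : Fin n} (hi : i ∈ D)
    (hiy : i ∈ improving f y) : rk f D x (H454R3.flip y i) < rk f D x y := by
  have h1 : ov D x (H454R3.flip y i) = H454R3.flip (ov D x y) i := by
    funext k
    by_cases hk : k = i
    · subst hk
      have h2 : ov D x y k = y k := if_pos hi
      have h3 : ov D x (H454R3.flip y k) k = H454R3.flip y k k := if_pos hi
      rw [h3]
      unfold H454R3.flip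
      rw [Function.update_self, Function.update_self, h2]
    · rw [flip_of_ne _ hk]
      unfold ov
      rw [flip_of_ne _ hk]
  have h2 : f (ov D x y) < f (ov D x (H454R3.flip y i)) := by
    rw [h1]
    have h3 := (hD y (ov D x y) hy (fun j hj => by
      unfold ov
      rw [if_neg fun h => hj (hDU h)]) (fun j hj => by
      unfold ov
      rw [if_pos hj]) i hi).1 hiy
    exact (mem_filter.1 h3).2
  unfold rk
  refine card_lt_card ((ssubset_iff_of_subset ?_).2 ⟨ov D x (H454R3.flip y i), ?_, ?_⟩)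
  · intro z hz
    rw [mem_filter] at hz ⊢
    exact ⟨hz.1, hz.2.1, h2.trans hz.2.2⟩
  · rw [mem_filter]
    refine ⟨mem_univ _, fun j hj => ?_, h2⟩
    unfold ov
    rw [if_neg hj]
  · rw [mem_filter]
    rintro ⟨_, _, h⟩
    exact lt_irrefl _ h

/-- the phase in which the coordinates in `D` are moved to the sink -/
lemma phase (hDU : D ⊆ U) (hU : ∀ y : Fin n → Bool, (∀ j, j ∉ U → y j = x j) → improving f y ⊆ U)
    (hD : ∀ y z : Fin n → Bool, (∀ j, j ∉ U → y j = x j) → (∀ j, j ∉ U → z j = x j) →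
      (∀ j ∈ D, y j = z j) → ∀ i ∈ D, (i ∈ improving f y ↔ i ∈ improving f z)) (r : ℕ) :
    ∀ y : Fin n → Bool, (∀ j, j ∉ U → y j = x j) → rk f D x y ≤ r →
      ∃ N ≤ r * 2 ^ Nat.clog 2 n, (∀ j, j ∉ U → (stp hn f)^[N] y j = x j) ∧
        ∀ i ∈ D, i ∉ improving f ((stp hn f)^[N] y) := by
  induction r with
  | zero =>
    intro y hy hr
    refine ⟨0, by omega, hy, fun i hi hiy => ?_⟩
    have := rk_flip_in hDU hD hy hi hiy
    omega
  | succ r ih =>
    intro y hy hr
    by_cases hnone : ∀ i ∈ D, i ∉ improving f y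
    · exact ⟨0, by omega, hy, hnone⟩
    push Not at hnone
    obtain ⟨i, hiD, hiy⟩ := hnone
    have inner : ∀ p : ℕ, ∀ y : Fin n → Bool, (∀ j, j ∉ U → y j = x j) → rk f D x y ≤ r + 1 →
        i ∈ improving f y → pt i y ≤ p →
        ∃ N ≤ p + 1 + r * 2 ^ Nat.clog 2 n, (∀ j, j ∉ U → (stp hn f)^[N] y j = x j) ∧
          ∀ i ∈ D, i ∉ improving f ((stp hn f)^[N] y) := by
      intro p
      induction p with
      | zero =>
        intro y hy hr hiy hp
        have hne : (improving f y).Nonempty := ⟨i, hiy⟩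
        obtain ⟨h1, _⟩ := rule_spec hn y _ hne
        have h2 : rule hn y (improving f y) = i := by
          by_contra hcon
          have := pt_step hn y _ hiy hcon
          omega
        have hs : stp hn f y = H454R3.flip y i := by
          unfold stp
          rw [if_pos hne, h2]
        obtain ⟨N, h3, h4, h5⟩ := ih (H454R3.flip y i) (fun j hj => by
            rw [flip_of_ne y (fun e : j = i => hj (e ▸ hDU hiD))]; exact hy j hj) (by
            have := rk_flip_in hDU hD hy hiD hiy
            omega)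
        refine ⟨N + 1, by omega, ?_, ?_⟩
        · rw [Function.iterate_succ_apply, hs]; exact h4
        · rw [Function.iterate_succ_apply, hs]; exact h5
      | succ p ihp =>
        intro y hy hr hiy hp
        have hne : (improving f y).Nonempty := ⟨i, hiy⟩
        obtain ⟨h1, _⟩ := rule_spec hn y _ hne
        have hs : stp hn f y = H454R3.flip y (rule hn y (improving f y)) := by
          unfold stp
          rw [if_pos hne]
        have hjU := hU y hy h1
        have hy' : ∀ j, j ∉ U → H454R3.flip y (rule hn y (improving f y)) j = x j := fun j hj => by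
          rw [flip_of_ne y (fun e : j = rule hn y (improving f y) => hj (e ▸ hjU))]; exact hy j hj
        by_cases hjD : rule hn y (improving f y) ∈ D
        · obtain ⟨N, h3, h4, h5⟩ := ih _ hy' (by
            have := rk_flip_in hDU hD hy hjD h1
            omega)
          refine ⟨N + 1, by omega, ?_, ?_⟩
          · rw [Function.iterate_succ_apply, hs]; exact h4
          · rw [Function.iterate_succ_apply, hs]; exact h5
        · have hji : rule hn y (improving f y) ≠ i := fun e => hjD (e ▸ hiD)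
          have h6 := pt_step hn y _ hiy hji
          obtain ⟨N, h3, h4, h5⟩ := ihp _ hy' (by rw [rk_flip_out hjD]; exact hr)
            ((hD _ _ hy hy' (fun j hj => by
              rw [flip_of_ne y (fun e : j = rule hn y (improving f y) => hjD (e ▸ hj))]) i hiD).1 hiy) (by omega)
          refine ⟨N + 1, by omega, ?_, ?_⟩
          · rw [Function.iterate_succ_apply, hs]; exact h4
          · rw [Function.iterate_succ_apply, hs]; exact h5
    have hp := pt_lt i y
    obtain ⟨N, h3, h4⟩ := inner (2 ^ Nat.clog 2 n - 1) y hy hr hiy (by omega)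
    refine ⟨N, ?_, h4⟩
    have : (r + 1) * 2 ^ Nat.clog 2 n = r * 2 ^ Nat.clog 2 n + 2 ^ Nat.clog 2 n := by ring
    omega
end

lemma convex {d m : ℕ} (h : d ≤ m) : m * (2 ^ d - 1) ≤ d * (2 ^ m - 1) := by
  induction m, h using Nat.le_induction with
  | base => exact le_rfl
  | succ m hm ih =>
    rcases Nat.eq_zero_or_pos d with rfl | hd
    · simp
    have h1 : 2 ^ d ≤ 2 ^ m := Nat.pow_le_pow_right (by norm_num) hm
    have h2 : 1 ≤ 2 ^ d := Nat.one_le_pow _ _ (by norm_num)
    obtain ⟨a, ha⟩ : ∃ a, 2 ^ d = a + 1 := ⟨2 ^ d - 1, by omega⟩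
    obtain ⟨b, hb⟩ : ∃ b, 2 ^ m = b + 1 := ⟨2 ^ m - 1, by omega⟩
    have h3 : 2 ^ (m + 1) - 1 = 2 * b + 1 := by rw [pow_succ, hb]; omega
    have h4 : 2 ^ d - 1 = a := by omega
    have h5 : 2 ^ m - 1 = b := by omega
    rw [h3, h4]
    rw [h4, h5] at ih
    have h6 : a ≤ b := by omega
    nlinarith

theorem upper (hn : 0 < n) {m : ℕ} {f : (Fin n → Bool) → ℕ} (hf : Blocks m f) (u : ℕ) :
    ∀ (U : Finset (Fin n)) (x : Fin n → Bool), U.card = u →
      (∀ y : Fin n → Bool, (∀ j, j ∉ U → y j = x j) → improving f y ⊆ U) →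
      ∀ y : Fin n → Bool, (∀ j, j ∉ U → y j = x j) → ∃ N : ℕ,
        m * N ≤ u * ((2 ^ m - 1) * 2 ^ Nat.clog 2 n) ∧ improving f ((stp hn f)^[N] y) = ∅ := by
  induction u using Nat.strong_induction_on with
  | _ u ih =>
    intro U x hu hU y hy
    by_cases hne : U.Nonempty
    swap
    · rw [not_nonempty_iff_eq_empty] at hne
      subst hne
      exact ⟨0, by simp, subset_empty.1 (hU y hy)⟩
    obtain ⟨D, hDU, hDne, hDm, hD⟩ := hf U x hne
    obtain ⟨N1, h1, h2, h3⟩ := phase hn hDU hU hD (2 ^ D.card - 1) y hy (rk_le f D x y)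
    have hd : 1 ≤ D.card := card_pos.2 hDne
    have hdu : D.card ≤ u := hu ▸ card_le_card hDU
    obtain ⟨N2, h4, h5⟩ := ih (u - D.card) (by omega) (U \ D) ((stp hn f)^[N1] y)
      (by rw [card_sdiff_of_subset hDU, hu]) (by
        intro z hz
        have hz1 : ∀ j, j ∉ U → z j = x j := fun j hj => by
          rw [hz j fun h => hj (mem_sdiff.1 h).1, h2 j hj]
        intro i hi
        refine mem_sdiff.2 ⟨hU z hz1 hi, fun hiD => ?_⟩
        exact h3 i hiD ((hD z _ hz1 h2 (fun j hj => hz j fun h => (mem_sdiff.1 h).2 hj) i hiD).1 hi))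
      ((stp hn f)^[N1] y) (fun _ _ => rfl)
    refine ⟨N2 + N1, ?_, by rw [Function.iterate_add_apply]; exact h5⟩
    have h6 := convex hDm
    have h7 : m * N1 ≤ D.card * ((2 ^ m - 1) * 2 ^ Nat.clog 2 n) := by
      calc m * N1 ≤ m * ((2 ^ D.card - 1) * 2 ^ Nat.clog 2 n) := Nat.mul_le_mul_left _ h1
        _ = (m * (2 ^ D.card - 1)) * 2 ^ Nat.clog 2 n := by ring
        _ ≤ (D.card * (2 ^ m - 1)) * 2 ^ Nat.clog 2 n := Nat.mul_le_mul_right _ h6
        _ = _ := by ring
    calc m * (N2 + N1) = m * N2 + m * N1 := by ring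
      _ ≤ (u - D.card) * ((2 ^ m - 1) * 2 ^ Nat.clog 2 n) +
          D.card * ((2 ^ m - 1) * 2 ^ Nat.clog 2 n) := Nat.add_le_add h4 h7
      _ = (u - D.card + D.card) * ((2 ^ m - 1) * 2 ^ Nat.clog 2 n) := by ring
      _ = u * ((2 ^ m - 1) * 2 ^ Nat.clog 2 n) := by rw [Nat.sub_add_cancel hdu]

/-- the path of the parity rule -/
theorem path (hn : 0 < n) {m : ℕ} {f : (Fin n → Bool) → ℕ} (hf : Blocks m f) (x : Fin n → Bool) :
    ∃ (L : ℕ) (v : ℕ → Fin n → Bool), v 0 = x ∧
      (∀ k < L, (improving f (v k)).Nonempty ∧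
        v (k + 1) = H454R3.flip (v k) (rule hn (v k) (improving f (v k)))) ∧
      improving f (v L) = ∅ ∧ m * L ≤ n * ((2 ^ m - 1) * 2 ^ Nat.clog 2 n) := by
  classical
  obtain ⟨N, hN, hN2⟩ := upper hn hf n univ x (by simp) (fun _ _ => subset_univ _) x
    (fun _ _ => rfl)
  have hex : ∃ k, improving f ((stp hn f)^[k] x) = ∅ := ⟨N, hN2⟩
  refine ⟨Nat.find hex, fun k => (stp hn f)^[k] x, rfl, ?_, Nat.find_spec hex, ?_⟩
  · intro k hk
    have h1 : (improving f ((stp hn f)^[k] x)).Nonempty := by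
      rw [nonempty_iff_ne_empty]
      exact Nat.find_min hex hk
    refine ⟨h1, ?_⟩
    show (stp hn f)^[k + 1] x = _
    rw [Function.iterate_succ_apply']
    exact if_pos h1
  · exact (Nat.mul_le_mul_left _ (Nat.find_min' hex hN2)).trans hN

end Pool.Agent.TH628.PR
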